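import Pool.Agent.Helper43_HAM.All

/-!
# MP_f63292_lc: the divisibility problem for Hamiltonian cycle counts modulo `2 ^ n`
-/

namespace Pool.Agent.Results.MP_f63292_lc.ParityPComplete

open Pool.Agent.HAM
open Pool.Agent.Helper32_HCK (languageProblem)

/-- For every `n ≥ 2` the problem whether the number of Hamiltonian cycles of a cubic bipartite
polyhedral graph is not divisible by `2 ^ n` is complete for parity-P and for `Mod_{2 ^ n} P`; it is
not solvable in polynomial time unless parity-P is contained in P. -/
theorem result (n : ℕ) (hn : 2 ≤ n) :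
    ModComplete 2 (barnette (2 ^ n)) ∧ ModComplete (2 ^ n) (barnette (2 ^ n)) ∧
    (DInP (2 ^ n) → ∀ L : Set (List Bool), InMod 2 (languageProblem L) → InP L) :=
  main H43.hHRD H43.hMEM H43.hCLO H43.hBO2 n hn

end Pool.Agent.Results.MP_f63292_lc.ParityPComplete
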